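import Pool.Agent.H586.AF.D
import Pool.Agent.H200.AF.DE

/-!
# Task AG-DE: derivatives of the fields and of the energy along the group (helper81 for helper586)
-/

set_option autoImplicit false
set_option linter.unusedVariables false

open MeasureTheory Matrix Finset Filter Topology
open scoped Matrix.Norms.Frobenius

namespace Pool.Agent.H81.AG

open Pool.Agent.H586.AF.GG
open Pool.Agent.H586.AF (IH ex1 ex2 ex3 s12 s13 s23 s14 s24 s34 S_QF S_HR mA)
open Pool.Agent.H200.AF (SP sp12 sp13 sp23 sp14 sp24 sp34 F1 F2 F3 BF BF_single)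

noncomputable section

variable {N L : ℕ} {G : Subgroup (UU N)}

/-! ### Frobenius norm and inner product -/

/-- real part of the trace -/
def rt (A : Mt N) : ℝ := (trace A).re

theorem ip_eq (S u : Mt N) : ip S u = rt (Sᴴ * u) := rfl

theorem rt_add (A B : Mt N) : rt (A + B) = rt A + rt B := by
  unfold rt
  rw [trace_add, Complex.add_re]

theorem rt_sub (A B : Mt N) : rt (A - B) = rt A - rt B := by
  unfold rt
  rw [trace_sub, Complex.sub_re]

theorem rt_neg (A : Mt N) : rt (-A) = -rt A := by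
  unfold rt
  rw [trace_neg, Complex.neg_re]

theorem rt_smul (r : ℝ) (A : Mt N) : rt (r • A) = r * rt A := by
  unfold rt
  rw [trace_smul, Complex.real_smul, Complex.re_ofReal_mul]

theorem rt_comm (A B : Mt N) : rt (A * B) = rt (B * A) := by
  unfold rt
  rw [trace_mul_comm]

theorem rt_conj (A : Mt N) : rt Aᴴ = rt A := by
  unfold rt
  rw [trace_conjTranspose, Complex.star_def, Complex.conj_re]

theorem ip_add (S u v : Mt N) : ip S (u + v) = ip S u + ip S v := by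
  rw [ip_eq, ip_eq, ip_eq, mul_add, rt_add]

theorem ip_sub (S u v : Mt N) : ip S (u - v) = ip S u - ip S v := by
  rw [ip_eq, ip_eq, ip_eq, mul_sub, rt_sub]

theorem ip_smul (S u : Mt N) (r : ℝ) : ip S (r • u) = r * ip S u := by
  rw [ip_eq, ip_eq, mul_smul_comm, rt_smul]

theorem ip_sum (A B : Mt N) : ip A B = ∑ i, ∑ j, (star (A i j) * B i j).re := by
  unfold ip
  rw [Matrix.trace, Complex.re_sum]
  simp only [Matrix.diag_apply, Matrix.mul_apply, Complex.re_sum, conjTranspose_apply]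
  rw [sum_comm]

theorem nsq (A : Mt N) : ‖A‖ ^ 2 = ∑ i, ∑ j, ‖A i j‖ ^ 2 := by
  have h0 : 0 ≤ ∑ i, ∑ j, ‖A i j‖ ^ (2 : ℝ) :=
    sum_nonneg fun i _ => sum_nonneg fun j _ => Real.rpow_nonneg (norm_nonneg _) _
  rw [frobenius_norm_def, ← Real.sqrt_eq_rpow, Real.sq_sqrt h0]
  simp only [Real.rpow_two]

theorem ip_self (A : Mt N) : ip A A = ‖A‖ ^ 2 := by
  rw [ip_sum, nsq]
  refine sum_congr rfl fun i _ => sum_congr rfl fun j _ => ?_
  rw [Complex.star_def, Complex.conj_mul']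
  norm_cast

theorem ip_le (A B : Mt N) : |ip A B| ≤ ‖A‖ * ‖B‖ := by
  set s : ℝ := ∑ i, ∑ j, ‖A i j‖ * ‖B i j‖ with hs
  have h1 : |ip A B| ≤ s := by
    rw [ip_sum]
    refine (abs_sum_le_sum_abs _ _).trans (sum_le_sum fun i _ => ?_)
    refine (abs_sum_le_sum_abs _ _).trans (sum_le_sum fun j _ => ?_)
    refine (Complex.abs_re_le_norm _).trans (le_of_eq ?_)
    rw [norm_mul, norm_star]
  have h2 : s ^ 2 ≤ (‖A‖ * ‖B‖) ^ 2 := by
    have h3 := sum_mul_sq_le_sq_mul_sq (univ : Finset (Fin N × Fin N))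
      (fun p => ‖A p.1 p.2‖) (fun p => ‖B p.1 p.2‖)
    rw [Fintype.sum_prod_type, Fintype.sum_prod_type, Fintype.sum_prod_type] at h3
    rw [mul_pow, nsq, nsq]
    exact h3
  have h4 : |s| ≤ ‖A‖ * ‖B‖ := abs_le_of_sq_le_sq h2 (by positivity)
  exact h1.trans ((le_abs_self s).trans h4)

/-- unitary matrices -/
def Un (A : Mt N) : Prop := Aᴴ * A = 1 ∧ A * Aᴴ = 1

theorem Un.one : Un (1 : Mt N) := by
  unfold Un
  rw [conjTranspose_one, mul_one]
  exact ⟨rfl, rfl⟩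

theorem Un.mul {A B : Mt N} (hA : Un A) (hB : Un B) : Un (A * B) := by
  constructor
  · rw [conjTranspose_mul, mul_assoc, ← mul_assoc Aᴴ, hA.1, one_mul, hB.1]
  · rw [conjTranspose_mul, mul_assoc, ← mul_assoc B, hB.2, one_mul, hA.2]

theorem Un.star {A : Mt N} (hA : Un A) : Un Aᴴ := by
  constructor
  · rw [conjTranspose_conjTranspose]
    exact hA.2
  · rw [conjTranspose_conjTranspose]
    exact hA.1

theorem Un.nrm {A : Mt N} (hA : Un A) (B : Mt N) : ‖A * B‖ = ‖B‖ := by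
  have h1 : ‖A * B‖ ^ 2 = ‖B‖ ^ 2 := by
    rw [← ip_self, ← ip_self, ip_eq, ip_eq, conjTranspose_mul, mul_assoc, ← mul_assoc Aᴴ, hA.1,
      one_mul]
  exact (sq_eq_sq₀ (norm_nonneg _) (norm_nonneg _)).1 h1

theorem un_mt (g : G) : Un (mt g) := by
  have h := (g : UU N).2
  constructor
  · exact mem_unitaryGroup_iff'.1 h
  · exact mem_unitaryGroup_iff.1 h

/-! ### The inner product with an antihermitian matrix -/

theorem ip_anti {T : Mt N} (hT : Tᴴ = -T) (u : Mt N) : ip T u = -rt (T * u) := by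
  rw [ip_eq, hT, neg_mul, rt_neg]

theorem ip_one {T : Mt N} (hT : Tᴴ = -T) : ip T 1 = 0 := by
  have h1 : rt Tᴴ = rt T := rt_conj T
  rw [hT, rt_neg] at h1
  rw [ip_anti hT, mul_one]
  linarith

theorem ip_star {T : Mt N} (hT : Tᴴ = -T) (u : Mt N) : ip T uᴴ = -ip T u := by
  rw [ip_anti hT, ip_eq, ← rt_conj, conjTranspose_mul, conjTranspose_conjTranspose, hT, mul_neg,
    neg_mul, rt_neg, rt_neg, rt_comm]

/-- the inner product as a continuous linear map -/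
def ipL (S : Mt N) : Mt N →L[ℝ] ℝ :=
  { toFun := fun u => ip S u
    map_add' := fun u v => ip_add S u v
    map_smul' := fun r u => ip_smul S u r
    cont := Complex.continuous_re.comp
      (Continuous.matrix_trace (continuous_const.matrix_mul continuous_id)) }

theorem cont_ip (S : Mt N) : Continuous (ip S) := (ipL S).continuous

theorem hd_ip (S : Mt N) {W : ℝ → Mt N} {W' : Mt N} {t : ℝ} (h : HasDerivAt W W' t) :
    HasDerivAt (fun t => ip S (W t)) (ip S W') t :=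
  (ipL S).hasFDerivAt.comp_hasDerivAt t h

/-- the adjoint as a continuous linear map -/
def stL : Mt N →L[ℝ] Mt N :=
  { toFun := fun u => uᴴ
    map_add' := fun u v => conjTranspose_add u v
    map_smul' := fun r u => by
      ext i j
      simp
    cont := continuous_id.matrix_conjTranspose }

theorem hd_star {W : ℝ → Mt N} {W' : Mt N} {t : ℝ} (h : HasDerivAt W W' t) :
    HasDerivAt (fun t => (W t)ᴴ) (W'ᴴ) t :=
  stL.hasFDerivAt.comp_hasDerivAt t h

/-- the derivative of the energy of a plaquette -/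
def dp (T : Mt N) (α β γ δ : ℝ) (a b c d : Mt N) : ℝ :=
  α * ip T (a * b * cᴴ * dᴴ) + β * ip T (b * cᴴ * dᴴ * a) -
    γ * ip T (dᴴ * a * b * cᴴ) - δ * ip T (a * b * cᴴ * dᴴ)

theorem pe_eq (a b c d : Mt N) : pe a b c d = rt (1 : Mt N) - ip 1 (a * b * cᴴ * dᴴ) := by
  rw [ip_eq, conjTranspose_one, one_mul, ← rt_sub]
  rfl

theorem pe_deriv {T : Mt N} (hT : Tᴴ = -T) {α β γ δ : ℝ} {A B C D : ℝ → Mt N}
    (hA : HasDerivAt A ((α • T) * A 0) 0) (hB : HasDerivAt B ((β • T) * B 0) 0)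
    (hC : HasDerivAt C ((γ • T) * C 0) 0) (hD : HasDerivAt D ((δ • T) * D 0) 0) :
    HasDerivAt (fun t => pe (A t) (B t) (C t) (D t)) (dp T α β γ δ (A 0) (B 0) (C 0) (D 0)) 0 := by
  have h1 := (hd_ip 1 (((hA.mul hB).mul (hd_star hC)).mul (hd_star hD))).const_sub (rt (1 : Mt N))
  have h2 : -(ip 1 ((((α • T) * A 0 * B 0 + A 0 * ((β • T) * B 0)) * (C 0)ᴴ +
      A 0 * B 0 * ((γ • T) * C 0)ᴴ) * (D 0)ᴴ +
      A 0 * B 0 * (C 0)ᴴ * ((δ • T) * D 0)ᴴ)) =
      dp T α β γ δ (A 0) (B 0) (C 0) (D 0) := by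
    generalize A 0 = a
    generalize B 0 = b
    generalize C 0 = c
    generalize D 0 = d
    have st : ∀ (r : ℝ) (u : Mt N), ((r • T) * u)ᴴ = -(r • (uᴴ * T)) := by
      intro r u
      have hr : (r • T)ᴴ = r • Tᴴ := stL.map_smul r T
      rw [conjTranspose_mul, hr, hT, smul_neg, mul_neg, mul_smul_comm]
    have e1 : rt ((α • T) * a * b * cᴴ * dᴴ) = α * rt (T * (a * b * cᴴ * dᴴ)) := by
      rw [smul_mul_assoc, smul_mul_assoc, smul_mul_assoc, smul_mul_assoc, rt_smul]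
      simp only [mul_assoc]
    have e2 : rt (a * ((β • T) * b) * cᴴ * dᴴ) = β * rt (T * (b * cᴴ * dᴴ * a)) := by
      have : a * ((β • T) * b) * cᴴ * dᴴ = a * ((β • T) * b * cᴴ * dᴴ) := by
        simp only [mul_assoc]
      rw [this, rt_comm, smul_mul_assoc, smul_mul_assoc, smul_mul_assoc, smul_mul_assoc, rt_smul]
      simp only [mul_assoc]
    have e3 : rt (a * b * ((γ • T) * c)ᴴ * dᴴ) = -(γ * rt (T * (dᴴ * a * b * cᴴ))) := by
      have : a * b * ((γ • T) * c)ᴴ * dᴴ = (a * b * cᴴ) * (-(γ • (T * dᴴ))) := by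
        rw [st]
        simp only [mul_assoc, neg_mul, mul_neg, smul_mul_assoc, mul_smul_comm]
      rw [this, rt_comm, neg_mul, smul_mul_assoc, rt_neg, rt_smul]
      simp only [mul_assoc]
    have e4 : rt (a * b * cᴴ * ((δ • T) * d)ᴴ) = -(δ * rt (T * (a * b * cᴴ * dᴴ))) := by
      have : a * b * cᴴ * ((δ • T) * d)ᴴ = (a * b * cᴴ * dᴴ) * (-(δ • T)) := by
        rw [st]
        simp only [mul_assoc, mul_neg, mul_smul_comm]
      rw [this, rt_comm, neg_mul, smul_mul_assoc, rt_neg, rt_smul]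
    unfold dp
    rw [ip_anti hT (a * b * cᴴ * dᴴ), ip_anti hT (b * cᴴ * dᴴ * a), ip_anti hT (dᴴ * a * b * cᴴ)]
    rw [ip_eq, conjTranspose_one, one_mul, add_mul, add_mul, add_mul, rt_add, rt_add, rt_add, e1, e2,
      e3, e4]
    ring
  rw [← h2]
  refine h1.congr_of_eventuallyEq (Eventually.of_forall fun t => ?_)
  exact pe_eq _ _ _ _

/-- the linearization -/
theorem ip_lin {T : Mt N} (hT : Tᴴ = -T) (hT1 : ‖T‖ ≤ 1) {p q r s : Mt N} (hp : Un p) (hq : Un q)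
    (hr : Un r) :
    |ip T (p * q * r * s) - (ip T p + ip T q + ip T r + ip T s)| ≤
      2 * (‖p - 1‖ + ‖q - 1‖ + ‖r - 1‖ + ‖s - 1‖) ^ 2 := by
  have h1 : ip T (p * q * r * s) - (ip T p + ip T q + ip T r + ip T s) =
      ip T ((p - 1) * (q - 1) + (p * q - 1) * (r - 1) + (p * q * r - 1) * (s - 1)) := by
    have h2 : (p - 1) * (q - 1) + (p * q - 1) * (r - 1) + (p * q * r - 1) * (s - 1) =
        p * q * r * s - p - q - r - s + 1 + 1 + 1 := by
      noncomm_ring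
    rw [h2, ip_add, ip_add, ip_add, ip_sub, ip_sub, ip_sub, ip_sub, ip_one hT]
    ring
  have hpq : ‖p * q - 1‖ ≤ ‖p - 1‖ + ‖q - 1‖ := by
    have h3 : p * q - 1 = p * (q - 1) + (p - 1) := by noncomm_ring
    rw [h3]
    refine (norm_add_le _ _).trans ?_
    rw [hp.nrm]
    linarith
  have hpqr : ‖p * q * r - 1‖ ≤ ‖p - 1‖ + ‖q - 1‖ + ‖r - 1‖ := by
    have h3 : p * q * r - 1 = p * q * (r - 1) + (p * q - 1) := by noncomm_ring
    rw [h3]
    refine (norm_add_le _ _).trans ?_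
    rw [(hp.mul hq).nrm]
    linarith
  rw [h1]
  refine (ip_le T _).trans ?_
  have h4 : ‖(p - 1) * (q - 1) + (p * q - 1) * (r - 1) + (p * q * r - 1) * (s - 1)‖ ≤
      ‖p - 1‖ * ‖q - 1‖ + (‖p - 1‖ + ‖q - 1‖) * ‖r - 1‖ +
        (‖p - 1‖ + ‖q - 1‖ + ‖r - 1‖) * ‖s - 1‖ := by
    refine (norm_add₃_le).trans ?_
    refine add_le_add (add_le_add (norm_mul_le _ _) ?_) ?_
    · exact (norm_mul_le _ _).trans (mul_le_mul_of_nonneg_right hpq (norm_nonneg _))
    · exact (norm_mul_le _ _).trans (mul_le_mul_of_nonneg_right hpqr (norm_nonneg _))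
  have h5 : ‖T‖ * ‖(p - 1) * (q - 1) + (p * q - 1) * (r - 1) + (p * q * r - 1) * (s - 1)‖ ≤
      1 * (‖p - 1‖ * ‖q - 1‖ + (‖p - 1‖ + ‖q - 1‖) * ‖r - 1‖ +
        (‖p - 1‖ + ‖q - 1‖ + ‖r - 1‖) * ‖s - 1‖) :=
    mul_le_mul hT1 h4 (norm_nonneg _) zero_le_one
  refine h5.trans ?_
  nlinarith [mul_nonneg (norm_nonneg (p - 1)) (norm_nonneg (q - 1)),
    mul_nonneg (norm_nonneg (p - 1)) (norm_nonneg (r - 1)),
    mul_nonneg (norm_nonneg (q - 1)) (norm_nonneg (r - 1)),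
    mul_nonneg (norm_nonneg (p - 1)) (norm_nonneg (s - 1)),
    mul_nonneg (norm_nonneg (q - 1)) (norm_nonneg (s - 1)),
    mul_nonneg (norm_nonneg (r - 1)) (norm_nonneg (s - 1)), sq_nonneg ‖p - 1‖, sq_nonneg ‖q - 1‖,
    sq_nonneg ‖r - 1‖, sq_nonneg ‖s - 1‖]

theorem dp_bound {T : Mt N} (hT : Tᴴ = -T) (hT1 : ‖T‖ ≤ 1) {α β γ δ S : ℝ} {a b c d : Mt N}
    (ha : Un a) (hb : Un b) (hc : Un c) (hd : Un d) (hα : |α| ≤ 1) (hβ : |β| ≤ 1) (hγ : |γ| ≤ 1)
    (hδ : |δ| ≤ 1) (sa : ‖a - 1‖ ≤ S) (sb : ‖b - 1‖ ≤ S) (sc : ‖c - 1‖ ≤ S) (sd : ‖d - 1‖ ≤ S) :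
    |dp T α β γ δ a b c d - (α + β - γ - δ) * (ip T a + ip T b - ip T c - ip T d)| ≤
      128 * S ^ 2 := by
  have hc' : Un cᴴ := hc.star
  have hd' : Un dᴴ := hd.star
  have nst : ∀ u : Mt N, ‖uᴴ - 1‖ = ‖u - 1‖ := by
    intro u
    have : uᴴ - 1 = (u - 1)ᴴ := by rw [conjTranspose_sub, conjTranspose_one]
    rw [this, frobenius_norm_conjTranspose]
  have sc' : ‖cᴴ - 1‖ ≤ S := by
    rw [nst]
    exact sc
  have sd' : ‖dᴴ - 1‖ ≤ S := by
    rw [nst]
    exact sd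
  have hS : 0 ≤ S := (norm_nonneg _).trans sa
  have key : ∀ {p q r s : Mt N}, Un p → Un q → Un r → ‖p - 1‖ ≤ S → ‖q - 1‖ ≤ S →
      ‖r - 1‖ ≤ S → ‖s - 1‖ ≤ S → ∀ {κ : ℝ}, |κ| ≤ 1 →
      |κ * ip T (p * q * r * s) - κ * (ip T p + ip T q + ip T r + ip T s)| ≤ 32 * S ^ 2 := by
    intro p q r s hp hq hr sp sq sr ss κ hκ
    rw [← mul_sub, abs_mul]
    have h1 := ip_lin hT hT1 (s := s) hp hq hr
    have h2 : (‖p - 1‖ + ‖q - 1‖ + ‖r - 1‖ + ‖s - 1‖) ^ 2 ≤ (4 * S) ^ 2 :=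
      pow_le_pow_left₀ (by positivity) (by linarith) 2
    have h3 : |ip T (p * q * r * s) - (ip T p + ip T q + ip T r + ip T s)| ≤ 32 * S ^ 2 := by
      nlinarith
    calc |κ| * |ip T (p * q * r * s) - (ip T p + ip T q + ip T r + ip T s)| ≤ 1 * (32 * S ^ 2) :=
          mul_le_mul hκ h3 (abs_nonneg _) zero_le_one
      _ = 32 * S ^ 2 := one_mul _
  have k1 := key ha hb hc' sa sb sc' sd' hα
  have k2 := key hb hc' hd' sb sc' sd' sa hβ
  have k3 := key hd' ha hb sd' sa sb sc' hγ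
  have k4 := key ha hb hc' sa sb sc' sd' hδ
  rw [ip_star hT, ip_star hT] at k1 k2 k3 k4
  rw [abs_le] at k1 k2 k3 k4 ⊢
  unfold dp
  constructor <;> nlinarith [k1.1, k1.2, k2.1, k2.2, k3.1, k3.2, k4.1, k4.2]

/-! ### Links -/

theorem mt_mul (g h : G) : mt (g * h) = mt g * mt h := rfl

theorem mt_inj {g h : G} (e : mt g = mt h) : g = h := Subtype.ext (Subtype.ext e)

theorem cont_mt : Continuous (fun g : G => mt g) :=
  continuous_subtype_val.comp continuous_subtype_val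

theorem hd_exp (T : Mt N) : HasDerivAt (fun t : ℝ => NormedSpace.exp (t • T)) T 0 := by
  have h := hasDerivAt_exp_smul_const T (0 : ℝ)
  rw [zero_smul, NormedSpace.exp_zero, one_mul] at h
  exact h

theorem hd_sh {T : Mt N} {γ : ℝ → G} (hγ : Grp T γ) (l : IH L) (σ : IH L → G) (l' : IH L) :
    HasDerivAt (fun t => mt (sh γ l t σ l'))
      ((((Pi.single l 1 : IH L → ℝ) l') • T) * mt (σ l')) 0 := by
  by_cases h : l' = l
  · subst h
    rw [Pi.single_eq_same, one_smul]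
    have h1 : (fun t => mt (sh γ l' t σ l')) =
        fun t => NormedSpace.exp (t • T) * Pool.Agent.H586.AF.GG.mt (σ l') := by
      funext t
      unfold sh
      rw [Function.update_self, mt_mul, hγ t]
    rw [h1]
    exact (hd_exp T).mul_const _
  · rw [Pi.single_eq_of_ne h, zero_smul, zero_mul]
    have h1 : (fun t => mt (sh γ l t σ l')) = fun t => mt (σ l') := by
      funext t
      unfold sh
      rw [Function.update_of_ne h]
    rw [h1]
    exact hasDerivAt_const _ _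

theorem sh_zero {T : Mt N} {γ : ℝ → G} (hγ : Grp T γ) (l : IH L) (σ : IH L → G) :
    sh γ l 0 σ = σ := by
  have h1 : γ 0 = 1 := by
    apply mt_inj
    rw [hγ 0, zero_smul, NormedSpace.exp_zero]
    rfl
  unfold sh
  rw [h1, one_mul, Function.update_eq_self]

theorem sz_nonneg (σ : IH L → G) : 0 ≤ sz σ := sum_nonneg fun l _ => norm_nonneg _

theorem sz_ge (σ : IH L → G) (l : IH L) : ‖mt (σ l) - 1‖ ≤ sz σ :=
  single_le_sum (f := fun l => ‖mt (σ l) - 1‖) (fun l _ => norm_nonneg _) (mem_univ l)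

/-- a link variable, with the coefficient of the shift and the value of the field -/
structure Lk (T : Mt N) (γ : ℝ → G) (l : IH L) (U : (IH L → G) → Mt N) (e : ℝ)
    (φ : (IH L → G) → ℝ) : Prop where
  der : ∀ σ, HasDerivAt (fun t => U (sh γ l t σ)) ((e • T) * U σ) 0
  cont : Continuous U
  nrm : ∀ σ, Un (U σ)
  bd : ∀ σ, ‖U σ - 1‖ ≤ sz σ
  e1 : |e| ≤ 1
  ph : ∀ σ, ip T (U σ) = φ σ

/-- the field -/
def phf (T : Mt N) (σ : IH L → G) : IH L → ℝ := fun l => ip T (wf σ l)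

section links

variable {T : Mt N} {γ : ℝ → G} (hT : Tᴴ = -T) (hγ : Grp T γ) (l : IH L)

include hT hγ

omit hγ in
theorem lk_one' : Lk T γ l (fun _ => 1) 0 (fun _ => 0) where
  der := fun σ => by
    rw [zero_smul, zero_mul]
    exact hasDerivAt_const _ _
  cont := continuous_const
  nrm := fun σ => Un.one
  bd := fun σ => by
    rw [sub_self, norm_zero]
    exact sz_nonneg σ
  e1 := by simp
  ph := fun σ => ip_one hT

theorem lk_one : Lk T γ l (fun _ => 1) 0 (fun _ => 0) := lk_one' hT l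

theorem lk_link (l' : IH L) : Lk T γ l (fun σ => mt (σ l')) ((Pi.single l 1 : IH L → ℝ) l')
      (fun σ => phf T σ l') where
  der := fun σ => hd_sh hγ l σ l'
  cont := cont_mt.comp (continuous_apply l')
  nrm := fun σ => un_mt _
  bd := fun σ => sz_ge σ l'
  e1 := by
    by_cases h : l' = l
    · rw [h, Pi.single_eq_same, abs_one]
    · rw [Pi.single_eq_of_ne h, abs_zero]
      exact zero_le_one
  ph := fun σ => by
    unfold phf wf
    rw [ip_sub, ip_one hT, sub_zero]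

theorem lk1 (x y z h : ℕ) :
    Lk T γ l (fun σ => ex1 L (fun i => mt (σ (Sum.inl i))) 1 x y z h)
      (F1 (Pi.single l 1) x y z h) (fun σ => F1 (phf T σ) x y z h) := by
  unfold F1 ex1
  by_cases c : (x < L ∧ y - 1 < L - 1 ∧ z - 1 < L - 1 ∧ h - 1 < L) ∧ 1 ≤ y ∧ 1 ≤ z ∧ 1 ≤ h
  · simp only [dif_pos c]
    exact lk_link hT hγ l _
  · simp only [dif_neg c]
    exact lk_one hT hγ l

theorem lk2 (x y z h : ℕ) :
    Lk T γ l (fun σ => ex2 L (fun i => mt (σ (Sum.inr (Sum.inl i)))) 1 x y z h)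
      (F2 (Pi.single l 1) x y z h) (fun σ => F2 (phf T σ) x y z h) := by
  unfold F2 ex2
  by_cases c : (x - 1 < L - 1 ∧ y < L ∧ z - 1 < L - 1 ∧ h - 1 < L) ∧ 1 ≤ x ∧ 1 ≤ z ∧ 1 ≤ h
  · simp only [dif_pos c]
    exact lk_link hT hγ l _
  · simp only [dif_neg c]
    exact lk_one hT hγ l

theorem lk3 (x y z h : ℕ) :
    Lk T γ l (fun σ => ex3 L (fun i => mt (σ (Sum.inr (Sum.inr i)))) 1 x y z h)
      (F3 (Pi.single l 1) x y z h) (fun σ => F3 (phf T σ) x y z h) := by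
  unfold F3 ex3
  by_cases c : (x - 1 < L - 1 ∧ y - 1 < L - 1 ∧ z < L ∧ h - 1 < L) ∧ 1 ≤ x ∧ 1 ≤ y ∧ 1 ≤ h
  · simp only [dif_pos c]
    exact lk_link hT hγ l _
  · simp only [dif_neg c]
    exact lk_one hT hγ l

/-- one plaquette -/
theorem plaq (hT1 : ‖T‖ ≤ 1) {A B C D : (IH L → G) → Mt N} {α β γ' δ : ℝ}
    {fA fB fC fD : (IH L → G) → ℝ} (hA : Lk T γ l A α fA) (hB : Lk T γ l B β fB)
    (hC : Lk T γ l C γ' fC) (hD : Lk T γ l D δ fD) :
    (∀ σ, HasDerivAt (fun t => pe (A (sh γ l t σ)) (B (sh γ l t σ)) (C (sh γ l t σ))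
      (D (sh γ l t σ))) (dp T α β γ' δ (A σ) (B σ) (C σ) (D σ)) 0) ∧
    (Continuous fun σ => dp T α β γ' δ (A σ) (B σ) (C σ) (D σ)) ∧
    ∀ σ, |dp T α β γ' δ (A σ) (B σ) (C σ) (D σ) - (α + β - γ' - δ) * (fA σ + fB σ - fC σ - fD σ)| ≤
      128 * sz σ ^ 2 := by
  refine ⟨fun σ => ?_, ?_, fun σ => ?_⟩
  · have h := pe_deriv hT (α := α) (β := β) (γ := γ') (δ := δ) (A := fun t => A (sh γ l t σ))
      (B := fun t => B (sh γ l t σ)) (C := fun t => C (sh γ l t σ)) (D := fun t => D (sh γ l t σ))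
    simp only [sh_zero hγ] at h
    exact h (hA.der σ) (hB.der σ) (hC.der σ) (hD.der σ)
  · have cA := hA.cont
    have cB := hB.cont
    have cC := hC.cont.matrix_conjTranspose
    have cD := hD.cont.matrix_conjTranspose
    unfold dp
    exact (((continuous_const.mul ((cont_ip T).comp (((cA.matrix_mul cB).matrix_mul cC).matrix_mul
        cD))).add
      (continuous_const.mul ((cont_ip T).comp (((cB.matrix_mul cC).matrix_mul cD).matrix_mul
        cA)))).sub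
      (continuous_const.mul ((cont_ip T).comp (((cD.matrix_mul cA).matrix_mul cB).matrix_mul
        cC)))).sub
      (continuous_const.mul ((cont_ip T).comp (((cA.matrix_mul cB).matrix_mul cC).matrix_mul cD)))
  · rw [← hA.ph σ, ← hB.ph σ, ← hC.ph σ, ← hD.ph σ]
    exact dp_bound hT hT1 (hA.nrm σ) (hB.nrm σ) (hC.nrm σ) (hD.nrm σ) hA.e1 hB.e1 hC.e1 hD.e1
      (hA.bd σ) (hB.bd σ) (hC.bd σ) (hD.bd σ)

end links

/-! ### Assembly -/

/-- extended links, direction 1 -/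
abbrev U1 (σ : IH L → G) (x y z h : ℕ) : Mt N := ex1 L (fun i => mt (σ (Sum.inl i))) 1 x y z h
/-- direction 2 -/
abbrev U2 (σ : IH L → G) (x y z h : ℕ) : Mt N :=
  ex2 L (fun i => mt (σ (Sum.inr (Sum.inl i)))) 1 x y z h
/-- direction 3 -/
abbrev U3 (σ : IH L → G) (x y z h : ℕ) : Mt N :=
  ex3 L (fun i => mt (σ (Sum.inr (Sum.inr i)))) 1 x y z h

theorem bg_zero (θ x : ℝ) : bg (0 : Mt N) θ x = 1 := by
  unfold bg
  rw [smul_zero, NormedSpace.exp_zero]

theorem en_zero (σ : IH L → G) : en 0 L 0 σ = wil L (U1 σ) (U2 σ) (U3 σ) (fun _ _ _ _ => 1) := by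
  unfold en
  simp only [bg_zero, one_mul, mul_one]

/-- the derivative of the energy -/
def DD (T : Mt N) (l : IH L) (σ : IH L → G) : ℝ :=
  let e : IH L → ℝ := Pi.single l 1
  s12 L (fun x y z h => dp T (F1 e x y z h) (F2 e (x + 1) y z h) (F1 e x (y + 1) z h) (F2 e x y z h)
    (U1 σ x y z h) (U2 σ (x + 1) y z h) (U1 σ x (y + 1) z h) (U2 σ x y z h)) +
  s13 L (fun x y z h => dp T (F1 e x y z h) (F3 e (x + 1) y z h) (F1 e x y (z + 1) h) (F3 e x y z h)
    (U1 σ x y z h) (U3 σ (x + 1) y z h) (U1 σ x y (z + 1) h) (U3 σ x y z h)) +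
  s23 L (fun x y z h => dp T (F2 e x y z h) (F3 e x (y + 1) z h) (F2 e x y (z + 1) h) (F3 e x y z h)
    (U2 σ x y z h) (U3 σ x (y + 1) z h) (U2 σ x y (z + 1) h) (U3 σ x y z h)) +
  s14 L (fun x y z h => dp T (F1 e x y z h) 0 (F1 e x y z (h + 1)) 0
    (U1 σ x y z h) 1 (U1 σ x y z (h + 1)) 1) +
  s24 L (fun x y z h => dp T (F2 e x y z h) 0 (F2 e x y z (h + 1)) 0
    (U2 σ x y z h) 1 (U2 σ x y z (h + 1)) 1) +
  s34 L (fun x y z h => dp T (F3 e x y z h) 0 (F3 e x y z (h + 1)) 0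
    (U3 σ x y z h) 1 (U3 σ x y z (h + 1)) 1)

section assembly

variable {T : Mt N} {γ : ℝ → G} (hT : Tᴴ = -T) (hγ : Grp T γ) (hT1 : ‖T‖ ≤ 1) (l : IH L)

include hT hγ hT1

theorem DD_deriv (σ : IH L → G) : HasDerivAt (fun t => en 0 L 0 (sh γ l t σ)) (DD T l σ) 0 := by
  have h0 : (fun t => en 0 L 0 (sh γ l t σ)) = fun t => wil L (U1 (sh γ l t σ)) (U2 (sh γ l t σ))
      (U3 (sh γ l t σ)) (fun _ _ _ _ => 1) := funext fun t => en_zero _
  rw [h0]
  unfold wil DD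
  exact (((((sp12 L).deriv fun x y z h =>
      (plaq hT hγ l hT1 (lk1 hT hγ l x y z h) (lk2 hT hγ l (x + 1) y z h)
        (lk1 hT hγ l x (y + 1) z h) (lk2 hT hγ l x y z h)).1 σ).fun_add
    ((sp13 L).deriv fun x y z h =>
      (plaq hT hγ l hT1 (lk1 hT hγ l x y z h) (lk3 hT hγ l (x + 1) y z h)
        (lk1 hT hγ l x y (z + 1) h) (lk3 hT hγ l x y z h)).1 σ)).fun_add
    ((sp23 L).deriv fun x y z h =>
      (plaq hT hγ l hT1 (lk2 hT hγ l x y z h) (lk3 hT hγ l x (y + 1) z h)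
        (lk2 hT hγ l x y (z + 1) h) (lk3 hT hγ l x y z h)).1 σ)).fun_add
    ((sp14 L).deriv fun x y z h =>
      (plaq hT hγ l hT1 (lk1 hT hγ l x y z h) (lk_one hT hγ l) (lk1 hT hγ l x y z (h + 1))
        (lk_one hT hγ l)).1 σ)).fun_add
    ((sp24 L).deriv fun x y z h =>
      (plaq hT hγ l hT1 (lk2 hT hγ l x y z h) (lk_one hT hγ l) (lk2 hT hγ l x y z (h + 1))
        (lk_one hT hγ l)).1 σ) |>.fun_add
    ((sp34 L).deriv fun x y z h =>
      (plaq hT hγ l hT1 (lk3 hT hγ l x y z h) (lk_one hT hγ l) (lk3 hT hγ l x y z (h + 1))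
        (lk_one hT hγ l)).1 σ)

theorem DD_cont : Continuous (fun σ : IH L → G => DD T l σ) := by
  unfold DD
  exact (((((sp12 L).cont fun x y z h =>
      (plaq hT hγ l hT1 (lk1 hT hγ l x y z h) (lk2 hT hγ l (x + 1) y z h)
        (lk1 hT hγ l x (y + 1) z h) (lk2 hT hγ l x y z h)).2.1).add
    ((sp13 L).cont fun x y z h =>
      (plaq hT hγ l hT1 (lk1 hT hγ l x y z h) (lk3 hT hγ l (x + 1) y z h)
        (lk1 hT hγ l x y (z + 1) h) (lk3 hT hγ l x y z h)).2.1)).add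
    ((sp23 L).cont fun x y z h =>
      (plaq hT hγ l hT1 (lk2 hT hγ l x y z h) (lk3 hT hγ l x (y + 1) z h)
        (lk2 hT hγ l x y (z + 1) h) (lk3 hT hγ l x y z h)).2.1)).add
    ((sp14 L).cont fun x y z h =>
      (plaq hT hγ l hT1 (lk1 hT hγ l x y z h) (lk_one hT hγ l) (lk1 hT hγ l x y z (h + 1))
        (lk_one hT hγ l)).2.1)).add
    ((sp24 L).cont fun x y z h =>
      (plaq hT hγ l hT1 (lk2 hT hγ l x y z h) (lk_one hT hγ l) (lk2 hT hγ l x y z (h + 1))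
        (lk_one hT hγ l)).2.1) |>.add
    ((sp34 L).cont fun x y z h =>
      (plaq hT hγ l hT1 (lk3 hT hγ l x y z h) (lk_one hT hγ l) (lk3 hT hγ l x y z (h + 1))
        (lk_one hT hγ l)).2.1)

theorem DD_bound (σ : IH L → G) :
    |DD T l σ - BF (Pi.single l 1) (phf T σ)| ≤ 768 * (L : ℝ) ^ 4 * sz σ ^ 2 := by
  have hB : (0 : ℝ) ≤ 128 * sz σ ^ 2 := by positivity
  have b1 := (sp12 L).bound hB fun x y z h =>
      (plaq hT hγ l hT1 (lk1 hT hγ l x y z h) (lk2 hT hγ l (x + 1) y z h)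
        (lk1 hT hγ l x (y + 1) z h) (lk2 hT hγ l x y z h)).2.2 σ
  have b2 := (sp13 L).bound hB fun x y z h =>
      (plaq hT hγ l hT1 (lk1 hT hγ l x y z h) (lk3 hT hγ l (x + 1) y z h)
        (lk1 hT hγ l x y (z + 1) h) (lk3 hT hγ l x y z h)).2.2 σ
  have b3 := (sp23 L).bound hB fun x y z h =>
      (plaq hT hγ l hT1 (lk2 hT hγ l x y z h) (lk3 hT hγ l x (y + 1) z h)
        (lk2 hT hγ l x y (z + 1) h) (lk3 hT hγ l x y z h)).2.2 σ
  have b4 := (sp14 L).bound hB fun x y z h =>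
      (plaq hT hγ l hT1 (lk1 hT hγ l x y z h) (lk_one hT hγ l) (lk1 hT hγ l x y z (h + 1))
        (lk_one hT hγ l)).2.2 σ
  have b5 := (sp24 L).bound hB fun x y z h =>
      (plaq hT hγ l hT1 (lk2 hT hγ l x y z h) (lk_one hT hγ l) (lk2 hT hγ l x y z (h + 1))
        (lk_one hT hγ l)).2.2 σ
  have b6 := (sp34 L).bound hB fun x y z h =>
      (plaq hT hγ l hT1 (lk3 hT hγ l x y z h) (lk_one hT hγ l) (lk3 hT hγ l x y z (h + 1))
        (lk_one hT hγ l)).2.2 σ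
  rw [abs_le] at b1 b2 b3 b4 b5 b6 ⊢
  unfold DD BF
  constructor
  · linarith [b1.1, b2.1, b3.1, b4.1, b5.1, b6.1]
  · linarith [b1.2, b2.2, b3.2, b4.2, b5.2, b6.2]

end assembly

/-- AG-DE -/
theorem tde : Pool.Agent.H586.AF.GG.S_DE := by
  intro hQF hHR
  refine ⟨768, ?_⟩
  intro N G T hT hT1 γ hγ L hL l
  refine ⟨fun S l' σ => ?_, DD T l, DD_cont hT hγ hT1 l, fun σ =>
    ⟨DD_deriv hT hγ hT1 l σ, ?_⟩⟩
  · have h1 := hd_ip S ((hd_sh hγ l σ l').sub_const (1 : Mt N))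
    have h2 : ip S ((((Pi.single l 1 : IH L → ℝ) l') • T) * mt (σ l')) =
        if l = l' then ip S T + ip S (T * wf σ l) else 0 := by
      by_cases h : l = l'
      · subst h
        rw [if_pos rfl, Pi.single_eq_same, one_smul, ← ip_add]
        congr 1
        unfold wf
        rw [mul_sub, mul_one]
        abel
      · rw [if_neg h, Pi.single_eq_of_ne (fun h' => h h'.symm), zero_smul, zero_mul, ip_eq, mul_zero]
        unfold rt
        rw [trace_zero, Complex.zero_re]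
    rw [h2] at h1
    exact h1
  · have h1 := DD_bound hT hγ hT1 l σ
    rw [BF_single hQF hHR hL] at h1
    refine h1.trans ?_
    have h2 : (0 : ℝ) ≤ N := Nat.cast_nonneg N
    have h3 : (0 : ℝ) ≤ (L : ℝ) ^ 4 * sz σ ^ 2 := by positivity
    nlinarith [mul_nonneg h2 h3]

end

end Pool.Agent.H81.AG
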