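import Pool.Agent.H380.AG.Stm
import Pool.Graph.R_seed8.H380R3.ARW.Frostman

/-!
# Frostman's lemma for compact subsets of `ℝ^n`

Generalisation of `Pool.Agent.H380.DS.Frost`.
-/

set_option autoImplicit false

open MeasureTheory Measure Set Metric Filter Topology
open scoped ENNReal NNReal
open Pool.Agent.H380R3.ARW (idx dyad mem_dyad frostman)

namespace Pool.Agent.H81.AG

open Pool.Agent.W778.AG Pool.Agent.H380.AG

variable {n : ℕ}

/-- the dyadic cube -/
def J (m : ℕ) (c : ℕ × (Fin n → ℤ)) : Set (En n) :=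
  {x | ∀ j, (c.2 j : ℝ) * 2 ^ c.1 ≤ 2 ^ m * x j ∧ 2 ^ m * x j < ((c.2 j : ℝ) + 1) * 2 ^ c.1}

/-- the integer part of `2^m x` -/
noncomputable def fl (m : ℕ) (x : En n) : Fin n → ℤ := fun j => ⌊2 ^ m * x j⌋

lemma mem_J_iff (m : ℕ) (c : ℕ × (Fin n → ℤ)) (x : En n) : x ∈ J m c ↔ fl m x ∈ dyad c := by
  constructor
  · intro h j
    obtain ⟨h1, h2⟩ := h j
    constructor
    · apply Int.le_floor.2
      push_cast
      exact h1
    · apply Int.floor_lt.2
      push_cast
      exact h2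
  · intro h j
    obtain ⟨h1, h2⟩ := h j
    constructor
    · have := Int.le_floor.1 h1
      push_cast at this
      exact this
    · have := Int.floor_lt.1 h2
      push_cast at this
      exact this

/-- the side of the cube -/
noncomputable def len (m l : ℕ) : ℝ := 2 ^ l / 2 ^ m

lemma len_pos (m l : ℕ) : 0 < len m l := by unfold len; positivity

lemma ediam_J (m : ℕ) (c : ℕ × (Fin n → ℤ)) :
    ediam (J m c) ≤ ENNReal.ofReal (((n : ℝ) + 1) * len m c.1) := by
  apply ediam_le_of_forall_dist_le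
  intro x hx y hy
  have h : (0 : ℝ) < 2 ^ m := by positivity
  have h1 : ∀ j, dist (x j) (y j) ≤ len m c.1 := by
    intro j
    obtain ⟨h1, h2⟩ := hx j
    obtain ⟨h3, h4⟩ := hy j
    rw [Real.dist_eq, len, le_div_iff₀ h, ← abs_of_pos h, ← abs_mul, abs_le]
    constructor <;> nlinarith
  rw [EuclideanSpace.dist_eq]
  have h0 := (len_pos m c.1).le
  have h2 : ∑ i, dist (x i) (y i) ^ 2 ≤ (((n : ℝ) + 1) * len m c.1) ^ 2 := by
    calc ∑ i, dist (x i) (y i) ^ 2 ≤ ∑ _i : Fin n, len m c.1 ^ 2 :=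
          Finset.sum_le_sum fun i _ => pow_le_pow_left₀ dist_nonneg (h1 i) 2
      _ = n * len m c.1 ^ 2 := by simp
      _ ≤ (((n : ℝ) + 1) * len m c.1) ^ 2 := by
          rw [mul_pow]
          apply mul_le_mul_of_nonneg_right _ (by positivity)
          have : (0 : ℝ) ≤ n := by positivity
          nlinarith
  rw [Real.sqrt_le_left (by positivity)]
  exact h2

/-- dyadic content is bounded from below -/
lemma content {K : Set (En n)} {s : ℝ} (hs : 0 < s) (hK : μH[s] K ≠ 0) :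
    ∃ c : ℝ, 0 < c ∧ ∀ (m : ℕ) (C : Finset (ℕ × (Fin n → ℤ))), (K ⊆ ⋃ i ∈ C, J m i) →
      c ≤ ∑ i ∈ C, len m i.1 ^ s := by
  by_contra hcon
  push Not at hcon
  have h1 : ∀ k : ℕ, ∃ (m : ℕ) (C : Finset (ℕ × (Fin n → ℤ))), (K ⊆ ⋃ i ∈ C, J m i) ∧
      ∑ i ∈ C, len m i.1 ^ s < 1 / ((k : ℝ) + 1) := fun k => hcon _ (by positivity)
  choose m C hcov hcost using h1
  apply hK
  have hκ : (0 : ℝ) < (n : ℝ) + 1 := by positivity
  have hlen : ∀ (k : ℕ) (i : C k), ((n : ℝ) + 1) * len (m k) i.1.1 ≤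
      ((n : ℝ) + 1) * (1 / ((k : ℝ) + 1)) ^ (1 / s) := by
    intro k i
    apply mul_le_mul_of_nonneg_left _ hκ.le
    have h2 : len (m k) i.1.1 ^ s ≤ 1 / ((k : ℝ) + 1) := by
      refine le_trans ?_ (hcost k).le
      exact Finset.single_le_sum (f := fun i => len (m k) i.1 ^ s)
        (fun j _ => Real.rpow_nonneg (len_pos _ _).le _) i.2
    have h3 : len (m k) i.1.1 = (len (m k) i.1.1 ^ s) ^ (1 / s) := by
      rw [← Real.rpow_mul (len_pos _ _).le, mul_one_div_cancel hs.ne', Real.rpow_one]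
    rw [h3]
    exact Real.rpow_le_rpow (Real.rpow_nonneg (len_pos _ _).le _) h2 (by positivity)
  have h4 : Tendsto (fun k : ℕ => ENNReal.ofReal (((n : ℝ) + 1) *
      (1 / ((k : ℝ) + 1)) ^ (1 / s))) atTop (𝓝 0) := by
    have h5 : Tendsto (fun k : ℕ => (1 / ((k : ℝ) + 1)) ^ (1 / s)) atTop (𝓝 (0 ^ (1 / s))) :=
      tendsto_one_div_add_atTop_nhds_zero_nat.rpow_const (Or.inr (by positivity))
    rw [Real.zero_rpow (by positivity)] at h5
    have h6 := ENNReal.tendsto_ofReal (h5.const_mul ((n : ℝ) + 1))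
    rwa [mul_zero, ENNReal.ofReal_zero] at h6
  have h7 := hausdorffMeasure_le_liminf_sum (β := ℕ) (ι := fun k => C k) s K _ h4
    (fun k i => J (m k) i.1) (Eventually.of_forall fun k i => by
      exact (ediam_J _ _).trans (ENNReal.ofReal_le_ofReal (hlen k i)))
    (Eventually.of_forall fun k => by
      refine (hcov k).trans ?_
      intro x hx
      simp only [mem_iUnion] at hx ⊢
      obtain ⟨i, hi, hx⟩ := hx
      exact ⟨⟨i, hi⟩, hx⟩)
  refine le_antisymm (h7.trans ?_) bot_le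
  have h8 : ∀ k : ℕ, ∑ i : C k, ediam (J (m k) i.1) ^ s ≤
      ENNReal.ofReal (((n : ℝ) + 1) ^ s * (1 / ((k : ℝ) + 1))) := by
    intro k
    have h9 : ∑ i : C k, ediam (J (m k) i.1) ^ s ≤
        ENNReal.ofReal (((n : ℝ) + 1) ^ s * ∑ i ∈ C k, len (m k) i.1 ^ s) := by
      rw [Finset.mul_sum, ENNReal.ofReal_sum_of_nonneg fun i _ =>
        mul_nonneg (Real.rpow_nonneg hκ.le _) (Real.rpow_nonneg (len_pos _ _).le _),
        ← Finset.sum_coe_sort (C k)]
      refine Finset.sum_le_sum fun i _ => ?_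
      have hp : (0 : ℝ) < ((n : ℝ) + 1) * len (m k) i.1.1 := mul_pos hκ (len_pos _ _)
      calc ediam (J (m k) i.1) ^ s
          ≤ ENNReal.ofReal (((n : ℝ) + 1) * len (m k) i.1.1) ^ s :=
            ENNReal.rpow_le_rpow (ediam_J _ _) hs.le
        _ = ENNReal.ofReal (((n : ℝ) + 1) ^ s * len (m k) i.1.1 ^ s) := by
            rw [ENNReal.ofReal_rpow_of_pos hp, Real.mul_rpow hκ.le (len_pos _ _).le]
    refine h9.trans (ENNReal.ofReal_le_ofReal ?_)
    exact mul_le_mul_of_nonneg_left (hcost k).le (Real.rpow_nonneg hκ.le _)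
  have h10 : Tendsto (fun k : ℕ => ENNReal.ofReal (((n : ℝ) + 1) ^ s * (1 / ((k : ℝ) + 1))))
      atTop (𝓝 0) := by
    have h11 := ENNReal.tendsto_ofReal ((tendsto_one_div_add_atTop_nhds_zero_nat
      (𝕜 := ℝ)).const_mul (((n : ℝ) + 1) ^ s))
    rwa [mul_zero, ENNReal.ofReal_zero] at h11
  calc liminf (fun k => ∑ i : C k, ediam (J (m k) i.1) ^ s) atTop
      ≤ liminf (fun k : ℕ => ENNReal.ofReal (((n : ℝ) + 1) ^ s * (1 / ((k : ℝ) + 1)))) atTop :=
        liminf_le_liminf (Eventually.of_forall h8)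
    _ = 0 := h10.liminf_eq

/-- discrete approximations of the Frostman measure -/
lemma exists_disc {K : Set (En n)} (hK : IsCompact K) {s c : ℝ} (hc : 0 < c)
    (hcont : ∀ (m : ℕ) (C : Finset (ℕ × (Fin n → ℤ))), (K ⊆ ⋃ i ∈ C, J m i) →
      c ≤ ∑ i ∈ C, len m i.1 ^ s) (m : ℕ) :
    ∃ P : Measure K, IsProbabilityMeasure P ∧ ∀ l ≤ m, ∀ a : Fin n → ℤ,
      P {z | z.1 ∈ J m (l, a)} ≤ ENNReal.ofReal (len m l ^ s / c) := by
  classical
  have hfin : (fl m '' K).Finite := by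
    obtain ⟨R, hR⟩ := hK.isBounded.subset_closedBall 0
    refine (Set.finite_Icc (fun _ : Fin n => ⌊2 ^ m * (-R)⌋) (fun _ : Fin n => ⌊2 ^ m * R⌋)).subset ?_
    rintro _ ⟨x, hx, rfl⟩
    have h := hR hx
    rw [mem_closedBall, dist_zero_right] at h
    have h' : ∀ j, |x j| ≤ R := fun j => by
      have := PiLp.norm_apply_le x j
      rw [Real.norm_eq_abs] at this
      exact this.trans h
    constructor
    · intro j
      exact Int.floor_le_floor (by
        apply mul_le_mul_of_nonneg_left (abs_le.1 (h' j)).1 (by positivity))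
    · intro j
      exact Int.floor_le_floor (by
        apply mul_le_mul_of_nonneg_left (abs_le.1 (h' j)).2 (by positivity))
  set F : Finset (Fin n → ℤ) := hfin.toFinset with hF
  have hmemF : ∀ y, y ∈ F ↔ ∃ x ∈ K, fl m x = y := by
    intro y
    rw [hF, Set.Finite.mem_toFinset]
    rfl
  have hp : ∀ y : F, ∃ x : K, fl m x.1 = y.1 := by
    intro y
    obtain ⟨x, hx, h⟩ := (hmemF y.1).1 y.2
    exact ⟨⟨x, hx⟩, h⟩
  choose p hp using hp
  obtain ⟨ν, h0, h1, h2, C, h3, h4⟩ := frostman m (fun l => len m l ^ s)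
    (fun l => Real.rpow_nonneg (len_pos _ _).le _) F
  set M : ℝ := ∑ y ∈ F, ν y with hM
  have hcM : c ≤ M := by
    refine (hcont m C ?_).trans h4
    intro x hx
    obtain ⟨i, hi, hxi⟩ := h3 (fl m x) ((hmemF _).2 ⟨x, hx, rfl⟩)
    simp only [mem_iUnion]
    exact ⟨i, hi, (mem_J_iff m i x).2 hxi⟩
  have hMpos : 0 < M := hc.trans_le hcM
  let P : Measure K := (ENNReal.ofReal M)⁻¹ •
    ∑ y : F, ENNReal.ofReal (ν y.1) • Measure.dirac (p y)
  have hMsum : ENNReal.ofReal M = ∑ y : F, ENNReal.ofReal (ν y.1) := by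
    rw [hM, ← Finset.sum_coe_sort F, ENNReal.ofReal_sum_of_nonneg fun i _ => h0 _]
  have hM0 : ENNReal.ofReal M ≠ 0 := by
    rw [Ne, ENNReal.ofReal_eq_zero]
    exact not_le.2 hMpos
  refine ⟨P, ⟨?_⟩, ?_⟩
  · simp only [P, Measure.smul_apply, Measure.coe_finsetSum, Finset.sum_apply, smul_eq_mul,
      Measure.dirac_apply_of_mem (mem_univ _), mul_one]
    rw [← hMsum]
    exact ENNReal.inv_mul_cancel hM0 ENNReal.ofReal_ne_top
  · intro l hl a
    have hS : ∀ y : F, p y ∈ {z : K | z.1 ∈ J m (l, a)} ↔ idx l y.1 = a := by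
      intro y
      change (p y).1 ∈ J m (l, a) ↔ _
      rw [mem_J_iff, hp, mem_dyad]
    have hval : P {z | z.1 ∈ J m (l, a)} = (ENNReal.ofReal M)⁻¹ *
        ∑ y : F, if idx l y.1 = a then ENNReal.ofReal (ν y.1) else 0 := by
      simp only [P, Measure.smul_apply, Measure.coe_finsetSum, Finset.sum_apply, smul_eq_mul]
      congr 1
      refine Finset.sum_congr rfl fun y _ => ?_
      rw [Measure.dirac_apply]
      by_cases h : idx l y.1 = a
      · rw [if_pos h, indicator_of_mem ((hS y).2 h)]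
        simp
      · rw [if_neg h, indicator_of_notMem (fun h' => h ((hS y).1 h'))]
        simp
    have hsum : (∑ y : F, if idx l y.1 = a then ENNReal.ofReal (ν y.1) else 0) =
        ENNReal.ofReal (∑ y ∈ F with idx l y = a, ν y) := by
      rw [Finset.sum_coe_sort F (fun y => if idx l y = a then ENNReal.ofReal (ν y) else 0),
        ← Finset.sum_filter, ENNReal.ofReal_sum_of_nonneg fun i _ => h0 _]
    rw [hval, hsum]
    calc (ENNReal.ofReal M)⁻¹ * ENNReal.ofReal (∑ y ∈ F with idx l y = a, ν y)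
        ≤ (ENNReal.ofReal M)⁻¹ * ENNReal.ofReal (len m l ^ s) := by
          gcongr
          exact h2 l hl a
      _ = ENNReal.ofReal (len m l ^ s / M) := by
          rw [ENNReal.ofReal_div_of_pos hMpos, mul_comm, ENNReal.div_eq_inv_mul, mul_comm]
      _ ≤ ENNReal.ofReal (len m l ^ s / c) := by
          apply ENNReal.ofReal_le_ofReal
          exact div_le_div_of_nonneg_left (Real.rpow_nonneg (len_pos _ _).le _) hc hcM

/-- the indices of the cubes near a point -/
noncomputable def nb (j : ℕ) (x : En n) : Finset (Fin n → ℤ) :=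
  Fintype.piFinset fun i => {⌊2 ^ j * x i⌋ - 1, ⌊2 ^ j * x i⌋, ⌊2 ^ j * x i⌋ + 1}

lemma nb_card (j : ℕ) (x : En n) : (nb j x).card ≤ 3 ^ n := by
  unfold nb
  rw [Fintype.card_piFinset]
  calc ∏ i : Fin n, ({⌊2 ^ j * x i⌋ - 1, ⌊2 ^ j * x i⌋, ⌊2 ^ j * x i⌋ + 1} : Finset ℤ).card
      ≤ ∏ _i : Fin n, 3 := Finset.prod_le_prod' fun i _ => Finset.card_le_three
    _ = 3 ^ n := by simp

/-- a ball of radius at most `2^(-j)` meets at most `3^n` dyadic cubes of this side -/
lemma ball_subset (j l : ℕ) (x : En n) (ρ : ℝ) (hρ : ρ ≤ (1 / 2) ^ j) :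
    ball x ρ ⊆ ⋃ a ∈ nb j x, J (j + l) (l, a) := by
  intro z hz
  rw [mem_ball] at hz
  have h2 : (0 : ℝ) < 2 ^ j := by positivity
  have h3 : (2 : ℝ) ^ j * (1 / 2) ^ j = 1 := by rw [← mul_pow]; norm_num
  have hl : (0 : ℝ) < 2 ^ l := by positivity
  have hz' : ∀ i, |z i - x i| < ρ := by
    intro i
    have h1 := PiLp.norm_apply_le (z - x) i
    rw [Real.norm_eq_abs, PiLp.sub_apply] at h1
    refine h1.trans_lt ?_
    rwa [← dist_eq_norm]
  simp only [mem_iUnion]
  refine ⟨fun i => ⌊2 ^ j * z i⌋, ?_, ?_⟩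
  · unfold nb
    rw [Fintype.mem_piFinset]
    intro i
    have h5 := abs_lt.1 (hz' i)
    have h6 : 2 ^ j * z i < 2 ^ j * x i + 1 := by nlinarith
    have h7 : 2 ^ j * x i - 1 < 2 ^ j * z i := by nlinarith
    have h8 : ⌊2 ^ j * z i⌋ ≤ ⌊2 ^ j * x i⌋ + 1 := by
      rw [← Int.floor_add_one]
      exact Int.floor_le_floor h6.le
    have h9 : ⌊2 ^ j * x i⌋ - 1 ≤ ⌊2 ^ j * z i⌋ := by
      rw [← Int.floor_sub_one]
      exact Int.floor_le_floor h7.le
    simp only [Finset.mem_insert, Finset.mem_singleton]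
    omega
  · intro i
    have hf1 := Int.floor_le (2 ^ j * z i)
    have hf2 := Int.lt_floor_add_one (2 ^ j * z i)
    constructor
    · change ((⌊2 ^ j * z i⌋ : ℤ) : ℝ) * 2 ^ l ≤ 2 ^ (j + l) * z i
      rw [pow_add]
      nlinarith
    · change 2 ^ (j + l) * z i < (((⌊2 ^ j * z i⌋ : ℤ) : ℝ) + 1) * 2 ^ l
      rw [pow_add]
      nlinarith

/-- the ball condition for the approximations -/
lemma disc_ball {K : Set (En n)} {s c : ℝ} (hs : 0 < s) (hc : 0 < c) {m : ℕ} {P : Measure K}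
    (hP : IsProbabilityMeasure P) (hPJ : ∀ l ≤ m, ∀ a : Fin n → ℤ,
      P {z | z.1 ∈ J m (l, a)} ≤ ENNReal.ofReal (len m l ^ s / c)) {j : ℕ} (hj : j ≤ m)
    {x : En n} {ρ : ℝ} (hρ : ρ ≤ (1 / 2) ^ j) :
    P {z | z.1 ∈ ball x ρ} ≤ ENNReal.ofReal (3 ^ n * ((1 / 2) ^ j) ^ s / c) := by
  obtain ⟨l, rfl⟩ := Nat.exists_eq_add_of_le hj
  have hlen : len (j + l) l = (1 / 2) ^ j := by
    unfold len
    rw [pow_add, div_mul_cancel_right₀ (by positivity), one_div, inv_pow]
  have h1 : {z : K | z.1 ∈ ball x ρ} ⊆ ⋃ a ∈ nb j x, {z | z.1 ∈ J (j + l) (l, a)} := by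
    intro z hz
    have := ball_subset j l x ρ hρ hz
    simp only [mem_iUnion] at this ⊢
    exact this
  have h2 := fun a => hPJ l (Nat.le_add_left _ _) a
  simp only [hlen] at h2
  have h3 : 0 ≤ ((1 / 2 : ℝ) ^ j) ^ s / c := by positivity
  calc P {z | z.1 ∈ ball x ρ} ≤ P (⋃ a ∈ nb j x, {z | z.1 ∈ J (j + l) (l, a)}) := measure_mono h1
    _ ≤ ∑ a ∈ nb j x, P {z | z.1 ∈ J (j + l) (l, a)} := measure_biUnion_finset_le _ _
    _ ≤ ∑ _a ∈ nb j x, ENNReal.ofReal (((1 / 2) ^ j) ^ s / c) := Finset.sum_le_sum fun a _ => h2 a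
    _ = (nb j x).card * ENNReal.ofReal (((1 / 2) ^ j) ^ s / c) := by
        rw [Finset.sum_const, nsmul_eq_mul]
    _ ≤ ((3 ^ n : ℕ) : ℝ≥0∞) * ENNReal.ofReal (((1 / 2) ^ j) ^ s / c) := by
        gcongr
        exact nb_card j x
    _ = ENNReal.ofReal (3 ^ n * ((1 / 2) ^ j) ^ s / c) := by
        rw [mul_div_assoc, ENNReal.ofReal_mul (by positivity)]
        congr 1
        rw [← ENNReal.ofReal_natCast]
        congr 1
        push_cast
        rfl

/-- **Frostman's lemma** for compact subsets of `ℝ^n` -/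
theorem t_FROST : S_FROST := by
  intro n K hK s hs hd
  have hH : μH[s] K ≠ 0 := by
    have h1 : μH[(s.toNNReal : ℝ)] K = ⊤ := hausdorffMeasure_of_lt_dimH hd
    rw [Real.coe_toNNReal s hs.le] at h1
    rw [h1]
    exact ENNReal.top_ne_zero
  obtain ⟨c, hc, hcont⟩ := content hs hH
  have h1 := exists_disc hK hc hcont
  choose P hP hPJ using h1
  have hcomp : CompactSpace K := isCompact_iff_compactSpace.1 hK
  let Q : ℕ → ProbabilityMeasure K := fun m => ⟨P m, hP m⟩
  obtain ⟨Q', -, hQ'⟩ := isCompact_univ.ultrafilter_le_nhds ((hyperfilter ℕ).map Q)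
    (by simp)
  have hlim : Tendsto Q (hyperfilter ℕ : Filter ℕ) (𝓝 Q') := hQ'
  set C : ℝ := max 1 (3 ^ n * 2 ^ s / c) with hC
  have hC0 : 0 < C := lt_of_lt_of_le one_pos (le_max_left _ _)
  -- the bound for open balls
  have hopen : ∀ (x : En n) (ρ : ℝ), 0 < ρ → (Q' : Measure K) {z | z.1 ∈ ball x ρ} ≤
      ENNReal.ofReal (C * ρ ^ s) := by
    intro x ρ hρ
    have hG : IsOpen {z : K | z.1 ∈ ball x ρ} := isOpen_ball.preimage continuous_subtype_val
    refine (ProbabilityMeasure.le_liminf_measure_open_of_tendsto hlim hG).trans ?_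
    have hev : ∀ᶠ m in (hyperfilter ℕ : Filter ℕ), (Q m : Measure K) {z | z.1 ∈ ball x ρ} ≤
        ENNReal.ofReal (C * ρ ^ s) := by
      rcases le_or_gt ρ 1 with h | h
      · obtain ⟨j, hj1, hj2⟩ := exists_nat_pow_near_of_lt_one hρ h (by norm_num : (0 : ℝ) < 1 / 2)
          (by norm_num)
        have hat : ∀ᶠ m in (hyperfilter ℕ : Filter ℕ), j ≤ m :=
          (Nat.hyperfilter_le_atTop) (eventually_ge_atTop j)
        filter_upwards [hat] with m hm
        refine (disc_ball hs hc (hP m) (hPJ m) hm hj2).trans ?_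
        apply ENNReal.ofReal_le_ofReal
        have h2 : ((1 / 2 : ℝ) ^ j) ≤ 2 * ρ := by
          rw [pow_succ] at hj1
          linarith
        calc 3 ^ n * ((1 / 2 : ℝ) ^ j) ^ s / c ≤ 3 ^ n * (2 * ρ) ^ s / c := by gcongr
          _ = 3 ^ n * 2 ^ s / c * ρ ^ s := by
            rw [Real.mul_rpow (by norm_num) hρ.le]; ring
          _ ≤ C * ρ ^ s := by
            apply mul_le_mul_of_nonneg_right (le_max_right _ _) (by positivity)
      · refine Eventually.of_forall fun m => ?_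
        refine (prob_le_one (μ := P m)).trans ?_
        rw [← ENNReal.ofReal_one]
        apply ENNReal.ofReal_le_ofReal
        have h3 : 1 ≤ ρ ^ s := Real.one_le_rpow h.le hs.le
        have h4 : 1 ≤ C := le_max_left _ _
        nlinarith
    exact (liminf_le_liminf hev).trans (liminf_const _).le
  refine ⟨(Q' : Measure K).map Subtype.val, C * 2 ^ s, ?_, ?_, by positivity, ?_⟩
  · exact Measure.isProbabilityMeasure_map measurable_subtype_coe.aemeasurable
  · rw [Measure.map_apply measurable_subtype_coe hK.measurableSet.compl]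
    have : (Subtype.val : K → En n) ⁻¹' Kᶜ = ∅ := by
      ext z
      simp [z.2]
    rw [this, measure_empty]
  · intro x r hr
    rw [Measure.map_apply measurable_subtype_coe measurableSet_closedBall]
    have h1 : (Subtype.val : K → En n) ⁻¹' closedBall x r ⊆ {z | z.1 ∈ ball x (2 * r)} := by
      intro z hz
      have hz' : dist z.1 x ≤ r := hz
      show dist z.1 x < 2 * r
      linarith
    have h2 : (0 : ℝ) < 2 * r := by linarith
    have h3 : C * (2 * r) ^ s ≤ C * 2 ^ s * r ^ s := by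
      rw [Real.mul_rpow (by norm_num) hr.le, mul_assoc]
    exact (measure_mono h1).trans ((hopen x (2 * r) h2).trans (ENNReal.ofReal_le_ofReal h3))

end Pool.Agent.H81.AG
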